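import Pool.Agent.K1H34.HYS.Stm
import Pool.Agent.H238R2.HY.Part

/-!
Piece CELL of project HYS: random cells, Chernoff bounds for both tails and the local lemma.
-/

set_option autoImplicit false

namespace Pool.Agent.K1H31.HYS

open Finset Pool.Agent.Helper635.LLL Classical

/-- Chernoff bound for the lower tail, counting form -/
theorem chernoffLow {V : Type} [Fintype V] (K : ℕ) (hK : 1 ≤ K) (S : Finset V) (y : Fin K)
    (l : ℝ) (hl : 0 ≤ l) (hl1 : l < 1) (a : ℝ) :
    (cnt (fun ω : V → Fin K => ((S.filter (fun u => ω u = y)).card : ℝ) < a) : ℝ) *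
      Real.exp (a * Real.log (1 - l)) ≤
      Real.exp (-(l * S.card / K)) * Fintype.card (V → Fin K) := by
  have hKpos : (0 : ℝ) < K := by exact_mod_cast hK
  have hK1 : (1 : ℝ) ≤ K := by exact_mod_cast hK
  have hpos : (0 : ℝ) < 1 - l := by linarith
  have hlog : Real.log (1 - l) ≤ 0 := Real.log_nonpos hpos.le (by linarith)
  -- moment generating function
  have h1 : (cnt (fun ω : V → Fin K => ((S.filter (fun u => ω u = y)).card : ℝ) < a) : ℝ) *
      Real.exp (a * Real.log (1 - l)) ≤
      ∑ ω : V → Fin K, ∏ u : V, (if u ∈ S ∧ ω u = y then (1 - l) else 1) := by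
    have e1 : ∀ ω : V → Fin K, ∏ u : V, (if u ∈ S ∧ ω u = y then (1 - l) else (1 : ℝ)) =
        (1 - l) ^ (S.filter (fun u => ω u = y)).card := by
      intro ω
      rw [Finset.prod_ite, Finset.prod_const, Finset.prod_const_one, mul_one]
      congr 2
      ext u; simp
    simp only [e1]
    rw [cnt, Finset.card_eq_sum_ones, Nat.cast_sum, Finset.sum_mul]
    refine (Finset.sum_le_sum (f := fun _ => ((1 : ℕ) : ℝ) * Real.exp (a * Real.log (1 - l)))
      (g := fun ω => (1 - l) ^ (S.filter (fun u => ω u = y)).card) ?_).trans ?_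
    · intro ω hω
      rw [mem_ev] at hω
      rw [Nat.cast_one, one_mul, ← Real.exp_log (pow_pos hpos _), Real.log_pow]
      apply Real.exp_le_exp.2
      exact mul_le_mul_of_nonpos_right hω.le hlog
    · refine Finset.sum_le_sum_of_subset_of_nonneg (Finset.subset_univ _) ?_
      intro ω _ _
      positivity
  refine h1.trans ?_
  have h2 : ∑ ω : V → Fin K, ∏ u : V, (if u ∈ S ∧ ω u = y then (1 - l) else (1 : ℝ)) =
      ∏ u : V, ∑ c : Fin K, (if u ∈ S ∧ c = y then (1 - l) else (1 : ℝ)) := by
    rw [Finset.prod_univ_sum]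
    rfl
  rw [h2]
  have h3 : ∀ u : V, ∑ c : Fin K, (if u ∈ S ∧ c = y then (1 - l) else (1 : ℝ)) =
      if u ∈ S then (K - l) else (K : ℝ) := by
    intro u
    by_cases hu : u ∈ S
    · simp only [hu, true_and, if_true]
      have : ∀ c : Fin K, (if c = y then (1 - l) else (1 : ℝ)) = 1 + (if c = y then (-l) else 0) := by
        intro c; split_ifs <;> ring
      simp only [this]
      rw [Finset.sum_add_distrib, Finset.sum_ite_eq' univ y]
      simp [sub_eq_add_neg]
    · simp [hu]
  simp only [h3]
  rw [Finset.prod_ite, Finset.prod_const, Finset.prod_const]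
  have h4 : (univ.filter (fun u => u ∈ S)) = S := by ext u; simp
  have h5 : (univ.filter (fun u => u ∉ S)).card = Fintype.card V - S.card := by
    have : (univ.filter (fun u => u ∉ S)) = Sᶜ := by ext u; simp
    rw [this, Finset.card_compl]
  rw [h4, h5, Fintype.card_fun, Fintype.card_fin]
  have hle : S.card ≤ Fintype.card V := Finset.card_le_univ _
  have h6 : ((K : ℝ) - l) ^ S.card ≤ Real.exp (-(l * S.card / K)) * (K : ℝ) ^ S.card := by
    have h7 : (K : ℝ) - l = K * (1 - l / K) := by field_simp
    have h9 : l / K ≤ 1 := by rw [div_le_one hKpos]; linarith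
    rw [h7, mul_pow, mul_comm]
    refine mul_le_mul_of_nonneg_right ?_ (by positivity)
    have h8 : 1 - l / K ≤ Real.exp (-(l / K)) := by
      have := Real.add_one_le_exp (-(l / K)); linarith
    calc (1 - l / K) ^ S.card ≤ (Real.exp (-(l / K))) ^ S.card :=
          pow_le_pow_left₀ (by linarith) h8 _
      _ = Real.exp (-(l * S.card / K)) := by
          rw [← Real.exp_nat_mul]; congr 1; ring
  push_cast
  calc ((K : ℝ) - l) ^ S.card * (K : ℝ) ^ (Fintype.card V - S.card)
      ≤ (Real.exp (-(l * S.card / K)) * (K : ℝ) ^ S.card) * (K : ℝ) ^ (Fintype.card V - S.card) :=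
        mul_le_mul_of_nonneg_right h6 (by positivity)
    _ = Real.exp (-(l * S.card / K)) * (K : ℝ) ^ Fintype.card V := by
        rw [mul_assoc, ← pow_add, Nat.add_sub_cancel' hle]

/-- the entropy inequality behind the lower tail -/
theorem entropyLow {l : ℝ} (hl : 0 ≤ l) (hl1 : l < 1) :
    l ^ 2 / 2 ≤ l + (1 - l) * Real.log (1 - l) := by
  have hu : (0 : ℝ) < 1 - l := by linarith
  have hlog : Real.log (1 - l) ≤ 0 := Real.log_nonpos hu.le (by linarith)
  have h1 : -Real.log (1 - l) ≤ Real.sinh (-Real.log (1 - l)) :=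
    Real.self_le_sinh_iff.mpr (by linarith)
  rw [Real.sinh_neg, Real.sinh_log hu] at h1
  have h2 : (1 - l) * ((1 - l - (1 - l)⁻¹) / 2) ≤ (1 - l) * Real.log (1 - l) :=
    mul_le_mul_of_nonneg_left (by linarith) hu.le
  have h3 : (1 - l) * ((1 - l - (1 - l)⁻¹) / 2) = ((1 - l) ^ 2 - 1) / 2 := by
    field_simp
  nlinarith

/-- lower tail -/
theorem tailLow {V : Type} [Fintype V] (K D : ℕ) (hK : 1 ≤ K) (S : Finset V) (hS : S.card ≤ D)
    (y : Fin K) (x : ℝ) (hx : 0 ≤ x) :
    (cnt (fun ω : V → Fin K => ((S.filter (fun u => ω u = y)).card : ℝ) <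
      ((S.card : ℝ) - x * D) / K) : ℝ) ≤
      Real.exp (-(x ^ 2 * D / (3 * K))) * Fintype.card (V → Fin K) := by
  have hKpos : (0 : ℝ) < K := by exact_mod_cast hK
  have hSD : (S.card : ℝ) ≤ D := by exact_mod_cast hS
  by_cases hd : (S.card : ℝ) ≤ x * D
  · have h0 : cnt (fun ω : V → Fin K => ((S.filter (fun u => ω u = y)).card : ℝ) <
        ((S.card : ℝ) - x * D) / K) = 0 := by
      unfold cnt
      rw [Finset.card_eq_zero, Finset.eq_empty_iff_forall_notMem]
      intro ω hω
      rw [mem_ev] at hω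
      have h1 : ((S.card : ℝ) - x * D) / K ≤ 0 :=
        div_nonpos_of_nonpos_of_nonneg (by linarith) hKpos.le
      have h2 : (0 : ℝ) ≤ ((S.filter (fun u => ω u = y)).card : ℝ) := Nat.cast_nonneg _
      linarith
    rw [h0, Nat.cast_zero]
    positivity
  · push Not at hd
    have hDpos : (0 : ℝ) ≤ D := Nat.cast_nonneg _
    have hxD : 0 ≤ x * D := mul_nonneg hx hDpos
    have hSpos : (0 : ℝ) < S.card := lt_of_le_of_lt hxD hd
    set d : ℝ := (S.card : ℝ) with hd'
    set l : ℝ := x * D / d with hl
    have hl0 : 0 ≤ l := by positivity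
    have hl1 : l < 1 := by rw [hl, div_lt_one hSpos]; exact hd
    have hdl : d * l = x * D := by rw [hl]; field_simp
    have h1 := chernoffLow K hK S y l hl0 hl1 (((S.card : ℝ) - x * D) / K)
    have h2 : Real.exp (-(l * S.card / K)) ≤ Real.exp (-(x ^ 2 * D / (3 * K))) *
        Real.exp (((S.card : ℝ) - x * D) / K * Real.log (1 - l)) := by
      rw [← Real.exp_add]
      apply Real.exp_le_exp.2
      rw [← hd']
      have h3 := entropyLow hl0 hl1
      have h4 : (l ^ 2 / 2) * (d / K) ≤ (l + (1 - l) * Real.log (1 - l)) * (d / K) :=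
        mul_le_mul_of_nonneg_right h3 (by positivity)
      have e1 : (l + (1 - l) * Real.log (1 - l)) * (d / K) =
          l * d / K + (d - x * D) / K * Real.log (1 - l) := by
        rw [← hdl]; ring
      have e2 : x ^ 2 * D / (3 * K) ≤ (l ^ 2 / 2) * (d / K) := by
        have e3 : (l ^ 2 / 2) * (d / K) = (x * D) * l / (2 * K) := by
          rw [← hdl]; field_simp
        have e4 : x ≤ l := by
          rw [hl, le_div_iff₀ hSpos]
          exact mul_le_mul_of_nonneg_left hSD hx
        rw [e3, div_le_div_iff₀ (by positivity) (by positivity)]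
        have e5 : x ^ 2 * D ≤ (x * D) * l := by nlinarith
        nlinarith [mul_nonneg (mul_nonneg hx hDpos) hl0]
      linarith
    have h8 : (cnt (fun ω : V → Fin K => ((S.filter (fun u => ω u = y)).card : ℝ) <
        ((S.card : ℝ) - x * D) / K) : ℝ) *
        Real.exp (((S.card : ℝ) - x * D) / K * Real.log (1 - l)) ≤
        (Real.exp (-(x ^ 2 * D / (3 * K))) * Fintype.card (V → Fin K)) *
          Real.exp (((S.card : ℝ) - x * D) / K * Real.log (1 - l)) := by
      calc _ ≤ Real.exp (-(l * S.card / K)) * Fintype.card (V → Fin K) := h1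
        _ ≤ (Real.exp (-(x ^ 2 * D / (3 * K))) *
            Real.exp (((S.card : ℝ) - x * D) / K * Real.log (1 - l))) *
            Fintype.card (V → Fin K) := mul_le_mul_of_nonneg_right h2 (by positivity)
        _ = _ := by ring
    exact le_of_mul_le_mul_right h8 (Real.exp_pos _)

/-- **piece CELL** -/
theorem t_CELL : Pool.Agent.K1H34.HYS.S_CELL := by
  intro V _ G K D x hK hD1 hD hx hx1 h8
  have : Nonempty (Fin K) := ⟨⟨0, hK⟩⟩
  have hcardpos : 0 < Fintype.card (V → Fin K) := Fintype.card_pos
  have hKpos : (0 : ℝ) < K := by exact_mod_cast hK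
  set w := ⌊(1 + x) * D / K⌋₊ with hw
  have hm : (1 + x) * D / K ≤ ((w + 1 : ℕ) : ℝ) := by
    push_cast; exact (Nat.lt_floor_add_one _).le
  have hw0 : (w : ℝ) ≤ (1 + x) * D / K := Nat.floor_le (by positivity)
  -- neighbourhoods
  set N : V → Finset V := fun v => univ.filter (fun u => G.Adj v u) with hN
  have hNc : ∀ v, (N v).card ≤ D := fun v => hD v
  obtain ⟨ω, hω⟩ := lll (ι := V) univ
    (fun v (ω : V → Fin K) => ∃ y : Fin K, w + 1 ≤ ((N v).filter (fun u => ω u = y)).card ∨
      (((N v).filter (fun u => ω u = y)).card : ℝ) < (((N v).card : ℝ) - x * D) / K) N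
    (by
      intro v _ ω ω' hag hbad
      obtain ⟨y, hy⟩ := hbad
      have he : (N v).filter (fun u => ω u = y) = (N v).filter (fun u => ω' u = y) := by
        refine Finset.filter_congr fun u hu => ?_
        rw [hag u hu]
      refine ⟨y, ?_⟩
      rw [← he]
      exact hy)
    (2 * (K * Real.exp (-(x ^ 2 * D / (3 * K))))) (D * D) (by positivity)
    (by
      intro v _
      have hsub : ev (fun ω : V → Fin K => ∃ y : Fin K,
          w + 1 ≤ ((N v).filter (fun u => ω u = y)).card ∨
          (((N v).filter (fun u => ω u = y)).card : ℝ) < (((N v).card : ℝ) - x * D) / K) ⊆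
          (Finset.univ : Finset (Fin K)).biUnion
            (fun y => ev (fun ω : V → Fin K => w + 1 ≤ ((N v).filter (fun u => ω u = y)).card) ∪
              ev (fun ω : V → Fin K => (((N v).filter (fun u => ω u = y)).card : ℝ) <
                (((N v).card : ℝ) - x * D) / K)) := by
        intro ω hω
        rw [mem_ev] at hω
        obtain ⟨j, hj⟩ := hω
        rw [Finset.mem_biUnion]
        refine ⟨j, Finset.mem_univ _, ?_⟩
        rw [Finset.mem_union, mem_ev, mem_ev]
        exact hj
      have h1 := (Finset.card_le_card hsub).trans Finset.card_biUnion_le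
      have h1' := h1.trans (Finset.sum_le_sum fun y _ => Finset.card_union_le _ _)
      have h2 : (cnt (fun ω : V → Fin K => ∃ y : Fin K,
          w + 1 ≤ ((N v).filter (fun u => ω u = y)).card ∨
          (((N v).filter (fun u => ω u = y)).card : ℝ) < (((N v).card : ℝ) - x * D) / K) : ℝ) ≤
          ∑ y : Fin K,
          ((cnt (fun ω : V → Fin K => w + 1 ≤ ((N v).filter (fun u => ω u = y)).card) : ℝ) +
            (cnt (fun ω : V → Fin K => (((N v).filter (fun u => ω u = y)).card : ℝ) <
                (((N v).card : ℝ) - x * D) / K) : ℝ)) := by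
        exact_mod_cast h1'
      refine h2.trans ?_
      refine (Finset.sum_le_sum (fun y _ => add_le_add
        (Pool.Agent.H238R2.HY.tail K D hK (N v) (hNc v) y x hx hx1 (w + 1) hm)
        (tailLow K D hK (N v) (hNc v) y x hx))).trans ?_
      rw [Finset.sum_const, Finset.card_univ, Fintype.card_fin, nsmul_eq_mul]
      exact le_of_eq (by ring))
    (by
      intro v _
      have hsub : univ.filter (fun j => ¬ Disjoint (N v) (N j)) ⊆
          (N v).biUnion (fun u => N u) := by
        intro j hj
        rw [mem_filter, Finset.not_disjoint_iff] at hj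
        obtain ⟨u, hu1, hu2⟩ := hj.2
        rw [mem_biUnion]
        refine ⟨u, hu1, ?_⟩
        rw [hN, mem_filter] at hu2 ⊢
        exact ⟨mem_univ _, hu2.2.symm⟩
      refine (Finset.card_le_card hsub).trans (Finset.card_biUnion_le.trans ?_)
      have hs : ∑ u ∈ N v, (N u).card ≤ ∑ _u ∈ N v, D :=
        Finset.sum_le_sum (fun u _ => hNc u)
      refine hs.trans ?_
      rw [Finset.sum_const, smul_eq_mul]
      exact Nat.mul_le_mul_right _ (hNc v))
    (by linarith) (Nat.one_le_iff_ne_zero.2 (by positivity)) hcardpos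
  refine ⟨fun v => (ω v : ℕ), fun v => (ω v).2, ?_⟩
  intro v y hy
  have h1 := hω v (mem_univ v)
  push Not at h1
  have h2 := h1 ⟨y, hy⟩
  have h3 : Pool.Agent.K1H34.HYS.cnt G (fun v => (ω v : ℕ)) v y =
      ((N v).filter (fun u => ω u = ⟨y, hy⟩)).card := by
    unfold Pool.Agent.K1H34.HYS.cnt
    rw [hN, Finset.filter_filter]
    congr 1
    apply Finset.filter_congr
    intro u _
    rw [Fin.ext_iff]
  rw [h3]
  refine ⟨?_, h2.2⟩
  have h4 : ((N v).filter (fun u => ω u = ⟨y, hy⟩)).card ≤ w := by omega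
  exact (Nat.cast_le.mpr h4).trans hw0

end Pool.Agent.K1H31.HYS
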